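import Pool.Agent.Helper79_MT4.Stmt

/-! Module ADJ of the squad MT4: traces on the dual block. -/

set_option autoImplicit false

namespace Pool.Agent.MT4.H6

open Module LinearMap Polynomial

universe u v w

theorem trace_adj {K : Type u} {V : Type v} [Field K] [AddCommGroup V] [Module K V]
    [FiniteDimensional K V] {ψ : V →ₗ[K] V →ₗ[K] K} (hψ : ∀ u, (∀ v, ψ u v = 0) → u = 0)
    {A B : End K V} (h : ∀ u v, ψ (A u) v = ψ u (B v)) : trace K V A = trace K V B := by
  have hinj : Function.Injective ψ := by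
    rw [injective_iff_map_eq_zero]
    intro u hu
    exact hψ u (fun v => by rw [hu]; rfl)
  let D : V ≃ₗ[K] Dual K V := LinearMap.linearEquivOfInjective ψ hinj (Subspace.dual_finrank_eq).symm
  have hD : ∀ u, D u = ψ u := fun u => rfl
  have hconj : D.conj A = Module.Dual.transpose (R := K) B := by
    ext φ v
    obtain ⟨u, rfl⟩ := D.surjective φ
    rw [LinearEquiv.conj_apply_apply, LinearEquiv.symm_apply_apply, hD, h]
    rfl
  rw [← trace_conj' A D, hconj, trace_transpose']

/-- ADJ -/
theorem adj : AdjStmt.{u, v, w} := by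
  intro K V ι _ _ _ _ _ ψ e σ g hB i X hX Y hY Z hZ
  have hc : ∀ X ∈ g, X * e i = e i * X := fun X hX => hB.comm X hX i
  refine ⟨?_, ?_, ?_⟩
  · have h := trace_adj (ψ := ψ) hB.nψ (A := X * e (σ i)) (B := -(X * e i)) (by
      intro x y
      rw [hc X hX]
      simp only [Module.End.mul_apply, LinearMap.neg_apply]
      rw [hB.sp X hX, hB.adj (σ i), hB.inv, map_neg])
    rw [h, map_neg]
  · have h := trace_adj (ψ := ψ) hB.nψ (A := X * Y * e (σ i)) (B := e i * (Y * X)) (by
      intro x y
      simp only [Module.End.mul_apply]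
      rw [hB.sp X hX, hB.sp Y hY, hB.adj (σ i), hB.inv, neg_neg])
    rw [h, trace_mul_comm, mul_assoc, hc X hX, ← mul_assoc, trace_mul_comm, ← mul_assoc]
  · have h := trace_adj (ψ := ψ) hB.nψ (A := X * Y * Z * e (σ i)) (B := -(e i * (Z * (Y * X)))) (by
      intro x y
      simp only [Module.End.mul_apply, LinearMap.neg_apply]
      rw [hB.sp X hX, hB.sp Y hY, hB.sp Z hZ, hB.adj (σ i), hB.inv, neg_neg, map_neg])
    rw [h, map_neg]
    congr 1
    rw [trace_mul_comm, mul_assoc Z, trace_mul_comm, mul_assoc (Y * X), ← hc Z hZ, ← mul_assoc]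

end Pool.Agent.MT4.H6
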