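import Pool.Agent.Helper6_MT4.Adj

/-! Modules SEP and GAM of the squad MT4. -/

set_option autoImplicit false

namespace Pool.Agent.MT4.H6

open Module LinearMap Polynomial

universe u v w

/-- equality of the traces of products of two and three elements of the orbit: equal indices -/
theorem iso (hW : WordsStmt.{u, v, w}) (h1 : Gr1Stmt.{u, v, w}) (h2 : Gr2Stmt.{u, v, w})
    {K : Type u} {V : Type v} {ι : Type w} [Field K] [CharZero K]
    [IsAlgClosed K] [AddCommGroup V] [Module K V] [FiniteDimensional K V] {ψ : V →ₗ[K] V →ₗ[K] K}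
    {e : ι → End K V} {σ : ι → ι} {g : Submodule K (End K V)} {N : End K V} (hB : Blk4 ψ e σ g)
    (hN : N ∈ R0 e g) (i j : ι)
    (ht : ∀ A ∈ Orb e g N, ∀ B ∈ Orb e g N, trace K V (A * B * e i) = trace K V (A * B * e j))
    (ht' : ∀ A ∈ Orb e g N, ∀ B ∈ Orb e g N, ∀ C ∈ Orb e g N,
      trace K V (A * B * C * e i) = trace K V (A * B * C * e j)) : i = j := by
  by_contra hij
  obtain ⟨W, hW1, hW2, hW3, hW4, x, hx, hx0⟩ := h1 K V ι ψ e σ g N hB hN i j hij
    (hW K V ι ψ e σ g N hB hN i j ht ht')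
  exact hx0 (h2 K V ι ψ e σ g N hB hN i j hij W hW1 hW2 hW3 hW4 x hx)

/-- SEP -/
theorem sep (hG : GrpStmt.{u, v, w}) (hO : OrbStmt.{u, v, w}) (hA : AdjStmt.{u, v, w})
    (hS : SignStmt.{u, v, w}) (hW : WordsStmt.{u, v, w}) (h1 : Gr1Stmt.{u, v, w})
    (h2 : Gr2Stmt.{u, v, w}) : SepStmt.{u, v, w} := by
  intro K V ι _ _ _ _ _ _ ψ e σ g N hB hN i j hji hjs
  by_contra hcon
  push Not at hcon
  obtain ⟨-, hR0, -⟩ := hO K V ι ψ e σ g N hB hN
  have hg : ∀ A ∈ Orb e g N, A ∈ g := fun A hA => (hR0 A hA).1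
  have key : ∀ X ∈ g, ∀ A ∈ Orb e g N, trace K V (X * A * e i) = trace K V (X * A * e j) := by
    rintro X hX _ ⟨k, a, b, hk, hab, rfl⟩
    obtain ⟨-, -, -, hb, -, -, hba, -⟩ := hG K V ι ψ e σ g hB a b hab
    obtain ⟨-, -, -, -, hgm, -, -, -⟩ := hG K V ι ψ e σ g hB b a hba
    have hstep : ∀ l, trace K V (X * (k • (a * N * b)) * e l) =
        k * trace K V (b * X * a * N * e l) := by
      intro l
      have : X * (k • (a * N * b)) * e l = k • (X * a * N * e l * b) := by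
        rw [mul_smul_comm, smul_mul_assoc]
        congr 1
        simp only [mul_assoc]
        rw [hb l]
      rw [this, map_smul, smul_eq_mul, trace_mul_comm]
      congr 2
    rw [hstep, hstep, hcon _ (hgm X hX)]
  have ht2 : ∀ A ∈ Orb e g N, ∀ B ∈ Orb e g N,
      trace K V (A * B * e i) = trace K V (A * B * e j) := fun A hA B hB => key A (hg A hA) B hB
  rcases hS K V ι ψ e σ g N hB hN i j key with h | h
  · exact hji (iso hW h1 h2 hB hN i j ht2 h).symm
  · have hi : i = σ j := by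
      refine iso hW h1 h2 hB hN i (σ j) ?_ ?_
      · intro A hA' B hB'
        rw [ht2 A hA' B hB', (hA K V ι ψ e σ g hB j A (hg A hA') B (hg B hB') B (hg B hB')).2.1]
      · intro A hA' B hB' C hC'
        rw [h A hA' B hB' C hC',
          (hA K V ι ψ e σ g hB j A (hg A hA') B (hg B hB') C (hg C hC')).2.2]
    apply hjs
    rw [hi, hB.inv]

/-- GAM -/
theorem gam (hC : CurStmt.{u, v}) (hO : OrbStmt.{u, v, w}) (hI : IrrStmt.{u, v, w})
    (hBas : BasStmt.{u, v, w}) (hA : AdjStmt.{u, v, w}) (hW : WordsStmt.{u, v, w})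
    (h1 : Gr1Stmt.{u, v, w}) (h2 : Gr2Stmt.{u, v, w}) : GamStmt.{u, v, w} := by
  intro K V ι _ _ _ _ _ _ ψ e σ g N hB hN i
  obtain ⟨-, hR0, -⟩ := hO K V ι ψ e σ g N hB hN
  have hg : ∀ A ∈ Orb e g N, A ∈ g := fun A hA => (hR0 A hA).1
  obtain ⟨hc1, hc2, -, hc4, -, -, hc7⟩ := hC K V
  obtain ⟨A₀, hA₀, B₀, hB₀, h0⟩ := (hBas K V ι ψ e σ g N hB hN i).2.2.2
  have p1 : PolyOn (fun A B _ : End K V => trace K V (A * B * e i)) := by
    intro p q r hp hq hr
    exact hc7 (trace K V) _ (hc4 _ _ (hc4 _ _ hp hq) (hc1 (e i)))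
  have p2 : PolyOn (fun A _ C : End K V => trace K V (A * C * e i)) := by
    intro p q r hp hq hr
    exact hc7 (trace K V) _ (hc4 _ _ (hc4 _ _ hp hr) (hc1 (e i)))
  have p3 : PolyOn (fun A B C : End K V => trace K V (A * B * C * e i) +
      trace K V (B * A * C * e i)) := by
    intro p q r hp hq hr
    obtain ⟨P, hP⟩ := hc7 (trace K V) _ (hc4 _ _ (hc4 _ _ (hc4 _ _ hp hq) hr) (hc1 (e i)))
    obtain ⟨Q, hQ⟩ := hc7 (trace K V) _ (hc4 _ _ (hc4 _ _ (hc4 _ _ hq hp) hr) (hc1 (e i)))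
    exact ⟨P + Q, fun s => by rw [eval_add, ← hP, ← hQ]⟩
  have p12 : PolyOn (fun A B C : End K V => trace K V (A * B * e i) * trace K V (A * C * e i)) := by
    intro p q r hp hq hr
    obtain ⟨P, hP⟩ := p1 p q r hp hq hr
    obtain ⟨Q, hQ⟩ := p2 p q r hp hq hr
    exact ⟨P * Q, fun s => by rw [eval_mul, ← hP, ← hQ]⟩
  by_contra hcon
  push Not at hcon
  rcases hI K V ι ψ e σ g N hB hN _ _ p12 p3 (by
    intro A hA B hB C hC
    by_cases h3 : trace K V (A * B * e i) = 0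
    · simp [h3]
    by_cases h4 : trace K V (A * C * e i) = 0
    · simp [h4]
    have := hcon A hA B hB C hC h3 h4
    simp [this]) with h | h
  · rcases hI K V ι ψ e σ g N hB hN _ _ p1 p2 h with h' | h'
    · exact h0 (h' A₀ hA₀ B₀ hB₀ B₀ hB₀)
    · exact h0 (h' A₀ hA₀ B₀ hB₀ B₀ hB₀)
  · refine hB.nfix i (iso hW h1 h2 hB hN (σ i) i ?_ ?_)
    · intro A hA' B hB'
      exact (hA K V ι ψ e σ g hB i A (hg A hA') B (hg B hB') B (hg B hB')).2.1
    · intro A hA' B hB' C hC'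
      rw [(hA K V ι ψ e σ g hB i A (hg A hA') B (hg B hB') C (hg C hC')).2.2]
      have := h A hA' B hB' C hC'
      linear_combination -this

end Pool.Agent.MT4.H6
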